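import Mathlib

/-!
# A free closed-open ultrafilter which is not a zero-cozero ultrafilter

The space `R` consists of the pairs `(σ, z)`, where `σ` is a finite sequence of finite sequences of
natural numbers (a node) and `z : ℕ → ℕ`. Put `cone τ = {(σ, z) : τ is a prefix of σ}`. A set `U` is
open if for each `(σ, z) ∈ U` almost all the cones above the nodes
`piece (σ, z) k = σ ⌢ ⟨z|k⟩ ⌢ dec (z k)` are contained in `U`; here `dec` maps `ℕ` onto the set of
all nodes. This is a first countable Hausdorff space with a base of clopen sets, and the cones are a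
countable pi-base.

For a dense open set `G` we define by recursion on `n` open sets `W n G σ` inside the cone of `σ`,
such that the closure of `W n G σ` is contained in `G`, and such that (`main`) any continuous real
function that vanishes on the intersection of `n` of the sets `W n G σ` (for `n` dense open sets
`G`, with `σ` fixed) has a zero at some point `(σ, z)`, although no such point lies in the closure
of any of these sets. The recursion is van Douwen's trick for remote points: the dense open set
which needs the node of the least rank serves as the first one. An ultrafilter containing the sets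
`WT G = ⋃ n, W n G [[n]]` and all cozero sets around `N = {([[n]], z)}` yields the filter.
-/

set_option autoImplicit false

open Set Filter Topology

namespace Pool.Agent.Results.MP_b2e206_gt.ClosedOpenNotZeroCozero

/-! ### Notions in the statement -/

section Defs

variable {X : Type*} [TopologicalSpace X]

/-- `A` is a zero set if `A = f⁻¹(0)` for some continuous `f : X → [0,1]`. -/
def IsZeroSet (A : Set X) : Prop := ∃ f : X → unitInterval, Continuous f ∧ A = f ⁻¹' {0}

/-- `A` is a cozero set if its complement is a zero set. -/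
def IsCozeroSet (A : Set X) : Prop := IsZeroSet Aᶜ

omit [TopologicalSpace X] in
/-- A (proper) filter is a `Q` filter if it has a base consisting of sets with property `Q`. -/
def IsQFilter (Q : Set X → Prop) (F : Filter X) : Prop :=
  F.NeBot ∧ ∀ A ∈ F, ∃ B ∈ F, Q B ∧ B ⊆ A

omit [TopologicalSpace X] in
/-- A `Q` filter is a `Q` ultrafilter if for every `A` with property `Q` it contains `A` or the
complement of `A`. -/
def IsQUltrafilter (Q : Set X → Prop) (F : Filter X) : Prop :=
  IsQFilter Q F ∧ ∀ A, Q A → A ∈ F ∨ Aᶜ ∈ F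

end Defs

/-! ### The space -/

/-- Nodes of the countable tree. -/
abbrev Node := List (List ℕ)

/-- The underlying set of the example. -/
structure R : Type where
  node : Node
  br : ℕ → ℕ

/-- The first `n` values of `z`. -/
def pre (z : ℕ → ℕ) (n : ℕ) : List ℕ := (List.range n).map z

@[simp] lemma pre_length (z : ℕ → ℕ) (n : ℕ) : (pre z n).length = n := by simp [pre]

lemma pre_succ (z : ℕ → ℕ) (n : ℕ) : pre z (n + 1) = pre z n ++ [z n] := by
  simp [pre, List.range_succ]

lemma pre_prefix (z : ℕ → ℕ) {m n : ℕ} (h : m ≤ n) : pre z m <+: pre z n := by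
  obtain ⟨k, rfl⟩ := Nat.exists_eq_add_of_le h
  induction k with
  | zero => exact List.prefix_rfl
  | succ k ih =>
    rw [← add_assoc, pre_succ]
    exact (ih (by omega)).trans (List.prefix_append _ _)

lemma pre_inj {z : ℕ → ℕ} {m n : ℕ} (h : pre z m = pre z n) : m = n := by
  have := congrArg List.length h
  simpa using this

/-- A surjection from `ℕ` to nodes. -/
def dec (a : ℕ) : Node := Denumerable.ofNat Node a

lemma dec_surj (τ : Node) : ∃ a, dec a = τ := ⟨Encodable.encode τ, by simp [dec]⟩

/-- The cone above a node. -/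
def cone (τ : Node) : Set R := {x | τ <+: x.node}

/-- The `k`-th piece converging to `x`. -/
def piece (x : R) (k : ℕ) : Node := x.node ++ [pre x.br k] ++ dec (x.br k)

lemma cone_anti {τ τ' : Node} (h : τ <+: τ') : cone τ' ⊆ cone τ := fun _ hx => h.trans hx

lemma node_prefix_piece (x : R) (k : ℕ) : x.node ++ [pre x.br k] <+: piece x k :=
  List.prefix_append _ _

lemma node_prefix_piece' (x : R) (k : ℕ) : x.node <+: piece x k :=
  (List.prefix_append _ _).trans (node_prefix_piece x k)

instance : TopologicalSpace R where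
  IsOpen U := ∀ x ∈ U, ∀ᶠ k in atTop, cone (piece x k) ⊆ U
  isOpen_univ := fun _ _ => Eventually.of_forall fun _ => subset_univ _
  isOpen_inter := by
    intro U V hU hV x hx
    filter_upwards [hU x hx.1, hV x hx.2] with k h1 h2
    exact subset_inter h1 h2
  isOpen_sUnion := by
    intro S hS x hx
    obtain ⟨U, hU, hxU⟩ := hx
    filter_upwards [hS U hU x hxU] with k hk
    exact hk.trans (subset_sUnion_of_mem hU)

lemma isOpen_iff {U : Set R} : IsOpen U ↔ ∀ x ∈ U, ∀ᶠ k in atTop, cone (piece x k) ⊆ U := Iff.rfl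

lemma isOpen_cone (τ : Node) : IsOpen (cone τ) := by
  intro x hx
  exact Eventually.of_forall fun k => cone_anti (List.IsPrefix.trans hx (node_prefix_piece' x k))

/-- The rank of a node. -/
def rk (τ : Node) : ℕ := (τ.map (fun s => s.length + 1)).sum

lemma rk_append (σ τ : Node) : rk (σ ++ τ) = rk σ + rk τ := by simp [rk]

lemma rk_single (s : List ℕ) : rk [s] = s.length + 1 := by simp [rk]

lemma rk_mono {σ τ : Node} (h : σ <+: τ) : rk σ ≤ rk τ := by
  obtain ⟨ρ, rfl⟩ := h
  rw [rk_append]
  omega

/-- If the cone above `τ` meets a piece of `x` with large index then `τ` is a prefix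
of the node of `x`. -/
lemma prefix_of_meets {x : R} {k : ℕ} {τ : Node} (hk : rk τ ≤ k) {y : R}
    (hy : y ∈ cone (piece x k)) (hyτ : y ∈ cone τ) : τ <+: x.node := by
  have h1 : x.node ++ [pre x.br k] <+: y.node := (node_prefix_piece x k).trans hy
  rcases List.prefix_or_prefix_of_prefix h1 hyτ with h | h
  · exfalso
    have := rk_mono h
    rw [rk_append, rk_single, pre_length] at this
    omega
  · rcases List.prefix_concat_iff.1 h with h | h
    · exfalso
      have h3 := congrArg rk h
      rw [rk_append, rk_single, pre_length] at h3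
      omega
    · exact h

lemma isClosed_cone (τ : Node) : IsClosed (cone τ) := by
  rw [← isOpen_compl_iff]
  intro x hx
  filter_upwards [eventually_ge_atTop (rk τ)] with k hk y hy hyτ
  exact hx (prefix_of_meets hk hy hyτ)

lemma isClopen_cone (τ : Node) : IsClopen (cone τ) := ⟨isClosed_cone τ, isOpen_cone τ⟩

/-- Basic neighbourhoods. -/
def B (x : R) (m : ℕ) : Set R := {x} ∪ ⋃ k ≥ m, cone (piece x k)

lemma mem_B (x : R) (m : ℕ) : x ∈ B x m := Or.inl rfl

lemma piece_subset_B (x : R) {m k : ℕ} (hk : m ≤ k) : cone (piece x k) ⊆ B x m :=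
  fun _ hy => Or.inr (mem_iUnion₂.2 ⟨k, hk, hy⟩)

lemma isOpen_B (x : R) (m : ℕ) : IsOpen (B x m) := by
  rintro y (hy | hy)
  · rw [mem_singleton_iff] at hy
    subst hy
    filter_upwards [eventually_ge_atTop m] with k hk
    exact piece_subset_B y hk
  · simp only [mem_iUnion] at hy
    obtain ⟨k, hk, hy⟩ := hy
    filter_upwards [isOpen_cone _ y hy] with l hl
    exact hl.trans (piece_subset_B x hk)

lemma exists_B_subset {U : Set R} (hU : IsOpen U) {x : R} (hx : x ∈ U) : ∃ m, B x m ⊆ U := by
  obtain ⟨m, hm⟩ := eventually_atTop.1 (hU x hx)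
  refine ⟨m, ?_⟩
  rintro y (hy | hy)
  · rw [mem_singleton_iff] at hy
    exact hy ▸ hx
  · simp only [mem_iUnion] at hy
    obtain ⟨k, hk, hy⟩ := hy
    exact hm k hk hy

/-- Two pieces of points with the same node meet only if they start in the same way. -/
lemma pre_eq_of_meets {x y w : R} {k l : ℕ} (hn : x.node = y.node)
    (hx : w ∈ cone (piece x k)) (hy : w ∈ cone (piece y l)) : pre x.br k = pre y.br l := by
  have h1 : x.node ++ [pre x.br k] <+: w.node := (node_prefix_piece x k).trans hx
  have h2 : y.node ++ [pre y.br l] <+: w.node := (node_prefix_piece y l).trans hy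
  rw [hn] at h1
  have h3 : y.node ++ [pre x.br k] = y.node ++ [pre y.br l] := by
    apply List.IsPrefix.eq_of_length
    · exact List.prefix_of_prefix_length_le h1 h2 (by simp)
    · simp
  simpa using h3

lemma pre_ext {z w : ℕ → ℕ} (h : ∀ n, ∃ m ≥ n, pre z m = pre w m) : z = w := by
  funext i
  obtain ⟨m, hm, h⟩ := h (i + 1)
  have h1 : (pre z m)[i]? = (pre w m)[i]? := by rw [h]
  have hi : i < m := by omega
  simpa [pre, hi] using h1

lemma isClosed_B (x : R) (m : ℕ) : IsClosed (B x m) := by
  rw [← isOpen_compl_iff]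
  intro y hy
  have hyx : y ≠ x := fun h => hy (Or.inl h)
  have hyp : ∀ k ≥ m, y ∉ cone (piece x k) := fun k hk h => hy (Or.inr (by
    simp only [mem_iUnion]; exact ⟨k, hk, h⟩))
  by_cases hpre : x.node <+: y.node
  · by_cases hn : x.node = y.node
    · -- same node, different branches
      have hbr : ∃ n, ∀ l ≥ n, pre x.br l ≠ pre y.br l := by
        by_contra hcon
        push Not at hcon
        apply hyx
        have := pre_ext hcon
        cases x; cases y
        simp_all
      obtain ⟨n, hne⟩ := hbr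
      filter_upwards [eventually_ge_atTop (max n (rk x.node + 1))] with l hl w hw hwB
      rcases hwB with hwx | hwk
      · rw [mem_singleton_iff] at hwx
        subst hwx
        have h1 : rk (y.node ++ [pre y.br l]) ≤ rk w.node :=
          rk_mono ((node_prefix_piece y l).trans hw)
        rw [rk_append, rk_single, pre_length] at h1
        rw [hn] at h1
        omega
      · simp only [mem_iUnion] at hwk
        obtain ⟨k, hk, hwk⟩ := hwk
        have h1 := pre_eq_of_meets hn hwk hw
        have hkl : k = l := by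
          have := congrArg List.length h1
          simpa using this
        subst hkl
        exact hne k (le_trans (le_max_left _ _) hl) h1
    · -- the node of `y` is strictly longer
      obtain ⟨ρ, hρ⟩ := hpre
      rcases ρ with _ | ⟨s, ρ⟩
      · simp at hρ
        exact absurd hρ hn
      · have hs : x.node ++ [s] <+: y.node := ⟨ρ, by simpa using hρ⟩
        by_cases hsk : ∃ k, m ≤ k ∧ pre x.br k = s
        · obtain ⟨k, hk, hks⟩ := hsk
          have hcl := (isClosed_cone (piece x k)).isOpen_compl y (hyp k hk)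
          filter_upwards [hcl] with l hl w hw hwB
          have hws : x.node ++ [s] <+: w.node :=
            (hs.trans (node_prefix_piece' y l)).trans hw
          rcases hwB with hwx | hwk
          · rw [mem_singleton_iff] at hwx
            subst hwx
            have := hws.length_le
            simp at this
          · simp only [mem_iUnion] at hwk
            obtain ⟨k', hk', hwk'⟩ := hwk
            have h2 : x.node ++ [pre x.br k'] <+: w.node := (node_prefix_piece x k').trans hwk'
            have h3 : x.node ++ [pre x.br k'] = x.node ++ [s] := by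
              apply List.IsPrefix.eq_of_length
              · exact List.prefix_of_prefix_length_le h2 hws (by simp)
              · simp
            have h4 : pre x.br k' = pre x.br k := by
              rw [hks]; simpa using h3
            have := pre_inj h4
            subst this
            exact hl hw hwk'
        · push Not at hsk
          refine Eventually.of_forall fun l w hw hwB => ?_
          have hws : x.node ++ [s] <+: w.node :=
            (hs.trans (node_prefix_piece' y l)).trans hw
          rcases hwB with hwx | hwk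
          · rw [mem_singleton_iff] at hwx
            subst hwx
            have := hws.length_le
            simp at this
          · simp only [mem_iUnion] at hwk
            obtain ⟨k', hk', hwk'⟩ := hwk
            have h2 : x.node ++ [pre x.br k'] <+: w.node := (node_prefix_piece x k').trans hwk'
            have h3 : x.node ++ [pre x.br k'] = x.node ++ [s] := by
              apply List.IsPrefix.eq_of_length
              · exact List.prefix_of_prefix_length_le h2 hws (by simp)
              · simp
            exact hsk k' hk' (by simpa using h3)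
  · filter_upwards [(isClosed_cone x.node).isOpen_compl y hpre] with l hl w hw hwB
    apply hl hw
    rcases hwB with hwx | hwk
    · rw [mem_singleton_iff] at hwx
      rw [hwx]
      exact List.prefix_rfl
    · simp only [mem_iUnion] at hwk
      obtain ⟨k, hk, hwk⟩ := hwk
      exact (node_prefix_piece' x k).trans hwk

lemma isClopen_B (x : R) (m : ℕ) : IsClopen (B x m) := ⟨isClosed_B x m, isOpen_B x m⟩


lemma not_mem_B {x y : R} (hxy : y ≠ x) : y ∉ B x (rk y.node) := by
  rintro (hy | hy)
  · exact hxy hy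
  · simp only [mem_iUnion] at hy
    obtain ⟨k, hk, hy⟩ := hy
    have h1 : rk (x.node ++ [pre x.br k]) ≤ rk y.node := rk_mono ((node_prefix_piece x k).trans hy)
    rw [rk_append, rk_single, pre_length] at h1
    omega

instance : T0Space R := by
  constructor
  intro x y hxy
  by_contra hne
  have h1 := (hxy.mem_open_iff (isOpen_B x (rk y.node))).1 (mem_B x _)
  exact not_mem_B (Ne.symm hne) h1

instance : CompletelyRegularSpace R := by
  classical
  constructor
  intro x K hK hx
  obtain ⟨m, hm⟩ := exists_B_subset hK.isOpen_compl hx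
  refine ⟨fun y => if y ∈ B x m then 0 else 1, ?_, ?_, ?_⟩
  · apply IsLocallyConstant.continuous
    rw [IsLocallyConstant.iff_eventually_eq]
    intro y
    by_cases hy : y ∈ B x m
    · filter_upwards [(isOpen_B x m).mem_nhds hy] with w hw
      simp [hy, hw]
    · filter_upwards [(isClosed_B x m).isOpen_compl.mem_nhds hy] with w hw
      have hw' : w ∉ B x m := hw
      simp [hy, hw']
  · simp [mem_B]
  · intro y hy
    have : y ∉ B x m := fun h => hm h hy
    simp [this]

instance : T35Space R where

/-! ### The open sets `U τ` -/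

/-- The union of the cones above the even children of `τ`. -/
def U (τ : Node) : Set R := {x | ∃ s : List ℕ, Even s.length ∧ τ ++ [s] <+: x.node}

lemma U_subset_cone (τ : Node) : U τ ⊆ cone τ := by
  rintro x ⟨s, -, hs⟩
  exact (List.prefix_append _ _).trans hs

lemma isOpen_U (τ : Node) : IsOpen (U τ) := by
  have : U τ = ⋃ s ∈ {s : List ℕ | Even s.length}, cone (τ ++ [s]) := by
    ext x
    simp [U, cone]
  rw [this]
  exact isOpen_biUnion fun s _ => isOpen_cone _

/-- Eventually all pieces of `x` are disjoint from `A`. -/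
def Far (x : R) (A : Set R) : Prop := ∀ᶠ k in atTop, Disjoint (cone (piece x k)) A

/-- Eventually all odd pieces of `x` are disjoint from `A`. -/
def OddFar (x : R) (A : Set R) : Prop :=
  ∀ᶠ k in atTop, Odd k → Disjoint (cone (piece x k)) A

lemma Far.mono {x : R} {A A' : Set R} (h : Far x A) (hA : A' ⊆ A) : Far x A' :=
  Filter.Eventually.mono h fun _ hk => hk.mono_right hA

lemma Far.oddFar {x : R} {A : Set R} (h : Far x A) : OddFar x A :=
  Filter.Eventually.mono h fun _ hk _ => hk

lemma Far.union {x : R} {A A' : Set R} (h : Far x A) (h' : Far x A') : Far x (A ∪ A') := by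
  filter_upwards [h, h'] with k h1 h2
  exact h1.union_right h2

lemma OddFar.union {x : R} {A A' : Set R} (h : OddFar x A) (h' : OddFar x A') :
    OddFar x (A ∪ A') := by
  filter_upwards [h, h'] with k h1 h2 hk
  exact (h1 hk).union_right (h2 hk)

lemma far_cone {x : R} {τ : Node} (hx : x ∉ cone τ) : Far x (cone τ) := by
  filter_upwards [(isClosed_cone τ).isOpen_compl x hx] with k hk
  exact Set.disjoint_left.2 fun y hy hy' => hk hy hy'

lemma Far.not_mem_closure {x : R} {A : Set R} (h : Far x A) (hx : x ∉ A) : x ∉ closure A := by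
  obtain ⟨m, hm⟩ := eventually_atTop.1 h
  rw [mem_closure_iff]
  push Not
  refine ⟨B x m, isOpen_B x m, mem_B x m, ?_⟩
  rw [Set.eq_empty_iff_forall_notMem]
  rintro y ⟨hy | hy, hyA⟩
  · rw [mem_singleton_iff] at hy
    exact hx (hy ▸ hyA)
  · simp only [mem_iUnion] at hy
    obtain ⟨k, hk, hy⟩ := hy
    exact Set.disjoint_left.1 (hm k hk) hy hyA

lemma finite_prefix (l : Node) : {τ : Node | τ <+: l}.Finite := by
  have : {τ : Node | τ <+: l} = {τ | τ ∈ l.inits} := by
    ext τ
    simp
  rw [this]
  exact List.finite_toSet _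

lemma finite_prefix' (κ l : Node) : {ρ : Node | κ ++ ρ <+: l}.Finite := by
  have : {ρ : Node | κ ++ ρ <+: l} = (fun ρ => κ ++ ρ) ⁻¹' {τ : Node | τ <+: l} := rfl
  rw [this]
  exact (finite_prefix l).preimage fun a _ b _ h => List.append_cancel_left h

/-- The properties shared by all the open sets which we construct inside the cone of `σ`, for a
given open set `G`. -/
structure Nice (G : Set R) (σ : Node) (A : Set R) : Prop where
  sub : A ⊆ cone σ
  op : IsOpen A
  cov : ∀ x ∈ A, ∃ τ, σ <+: τ ∧ cone τ ⊆ G ∧ x ∈ U τ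
  far : ∀ x, x ∉ G → Far x A
  odd : ∀ x, x ∉ A → OddFar x A

lemma Nice.subset {G : Set R} {σ : Node} {A : Set R} (h : Nice G σ A) : A ⊆ G := by
  intro x hx
  obtain ⟨τ, -, h1, h2⟩ := h.cov x hx
  exact h1 (U_subset_cone τ h2)

lemma Nice.closure_subset {G : Set R} {σ : Node} {A : Set R} (h : Nice G σ A) :
    closure A ⊆ G := by
  intro x hx
  by_contra hxG
  exact (h.far x hxG).not_mem_closure (fun hxA => hxG (h.subset hxA)) hx

lemma nice_empty (G : Set R) (σ : Node) : Nice G σ ∅ where
  sub := empty_subset _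
  op := isOpen_empty
  cov := fun x hx => absurd hx (notMem_empty x)
  far := fun _ _ => Eventually.of_forall fun _ => disjoint_empty _
  odd := fun _ _ => Eventually.of_forall fun _ _ => disjoint_empty _

lemma Nice.union {G : Set R} {σ : Node} {A A' : Set R} (h : Nice G σ A) (h' : Nice G σ A') :
    Nice G σ (A ∪ A') where
  sub := union_subset h.sub h'.sub
  op := h.op.union h'.op
  cov := by
    rintro x (hx | hx)
    · exact h.cov x hx
    · exact h'.cov x hx
  far := fun x hx => (h.far x hx).union (h'.far x hx)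
  odd := fun x hx => (h.odd x fun h => hx (Or.inl h)).union (h'.odd x fun h => hx (Or.inr h))

lemma nice_U {G : Set R} {τ : Node} (hG : cone τ ⊆ G) : Nice G τ (U τ) where
  sub := U_subset_cone τ
  op := isOpen_U τ
  cov := fun x hx => ⟨τ, List.prefix_rfl, hG, hx⟩
  far := fun x hx => (far_cone fun h => hx (hG h)).mono (U_subset_cone τ)
  odd := by
    intro x hx
    by_cases hxτ : x ∈ cone τ
    · obtain ⟨ρ, hρ⟩ := hxτ
      rcases ρ with _ | ⟨s, ρ⟩
      · have hn : τ = x.node := by simpa using hρ
        refine Eventually.of_forall fun k hk => ?_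
        rw [Set.disjoint_left]
        rintro y hy ⟨s, hs, hsy⟩
        have h1 : τ ++ [pre x.br k] <+: y.node := by
          rw [hn]
          exact (node_prefix_piece x k).trans hy
        have h2 : τ ++ [pre x.br k] = τ ++ [s] :=
          (List.prefix_of_prefix_length_le h1 hsy (by simp)).eq_of_length (by simp)
        have h3 : pre x.br k = s := by simpa using h2
        rw [← h3, pre_length] at hs
        exact (Nat.not_even_iff_odd.2 hk) hs
      · have h0 : τ ++ [s] <+: x.node := ⟨ρ, by simpa using hρ⟩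
        have hs : ¬ Even s.length := fun hs => hx ⟨s, hs, h0⟩
        refine Eventually.of_forall fun k hk => ?_
        rw [Set.disjoint_left]
        rintro y hy ⟨s', hs', hsy⟩
        have h1 : τ ++ [s] <+: y.node := (h0.trans (node_prefix_piece' x k)).trans hy
        have h2 : τ ++ [s] = τ ++ [s'] :=
          (List.prefix_of_prefix_length_le h1 hsy (by simp)).eq_of_length (by simp)
        have h3 : s = s' := by simpa using h2
        rw [h3] at hs
        exact hs hs'
    · exact ((far_cone hxτ).mono (U_subset_cone τ)).oddFar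

/-- Locally finite unions of nice sets are nice. -/
lemma nice_iUnion {G : Set R} {κ : Node} (m : ℕ) {A : Node → Set R}
    (hA : ∀ ρ, Nice G (κ ++ ρ) (A ρ)) : Nice G κ (⋃ ρ ∈ {ρ : Node | rk ρ ≤ m}, A ρ) where
  sub := by
    refine iUnion₂_subset fun ρ _ => ?_
    exact (hA ρ).sub.trans (cone_anti (List.prefix_append _ _))
  op := isOpen_biUnion fun ρ _ => (hA ρ).op
  cov := by
    intro x hx
    simp only [mem_iUnion] at hx
    obtain ⟨ρ, -, hx⟩ := hx
    obtain ⟨τ, h1, h2⟩ := (hA ρ).cov x hx
    exact ⟨τ, (List.prefix_append _ _).trans h1, h2⟩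
  far := by
    intro x hx
    have h1 : ∀ᶠ k in atTop, ∀ ρ ∈ {ρ : Node | κ ++ ρ <+: x.node},
        Disjoint (cone (piece x k)) (A ρ) :=
      (eventually_all_finite (finite_prefix' κ x.node)).2 fun ρ _ => (hA ρ).far x hx
    filter_upwards [h1, eventually_ge_atTop (rk κ + m)] with k hk hkm
    rw [Set.disjoint_left]
    intro y hy hyA
    simp only [mem_iUnion] at hyA
    obtain ⟨ρ, hρ, hyA⟩ := hyA
    have h2 : κ ++ ρ <+: x.node := by
      refine prefix_of_meets (k := k) ?_ hy ((hA ρ).sub hyA)
      rw [rk_append]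
      have : rk ρ ≤ m := hρ
      omega
    exact Set.disjoint_left.1 (hk ρ h2) hy hyA
  odd := by
    intro x hx
    by_cases hxA : x ∈ (⋃ ρ ∈ {ρ : Node | rk ρ ≤ m}, A ρ)
    · exact absurd hxA hx
    have h1 : ∀ᶠ k in atTop, ∀ ρ ∈ {ρ : Node | κ ++ ρ <+: x.node}, rk ρ ≤ m → Odd k →
        Disjoint (cone (piece x k)) (A ρ) := by
      refine (eventually_all_finite (finite_prefix' κ x.node)).2 fun ρ _ => ?_
      by_cases hρ : rk ρ ≤ m
      · have hxρ : x ∉ A ρ := fun h => hx (mem_iUnion₂.2 ⟨ρ, hρ, h⟩)
        filter_upwards [(hA ρ).odd x hxρ] with k hk _ hk'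
        exact hk hk'
      · exact Eventually.of_forall fun k h => absurd h hρ
    filter_upwards [h1, eventually_ge_atTop (rk κ + m)] with k hk hkm hodd
    rw [Set.disjoint_left]
    intro y hy hyA
    simp only [mem_iUnion] at hyA
    obtain ⟨ρ, hρ, hyA⟩ := hyA
    have h2 : κ ++ ρ <+: x.node := by
      refine prefix_of_meets (k := k) ?_ hy ((hA ρ).sub hyA)
      rw [rk_append]
      have : rk ρ ≤ m := hρ
      omega
    exact Set.disjoint_left.1 (hk ρ h2 hρ hodd) hy hyA

/-! ### The recursive construction -/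

/-- The least rank of a `ρ` such that the cone above `κ ++ ρ` is contained in `G`. -/
noncomputable def mrk (G : Set R) (κ : Node) : ℕ := sInf {n | ∃ ρ, rk ρ = n ∧ cone (κ ++ ρ) ⊆ G}

lemma mrk_le {G : Set R} {κ ρ : Node} (h : cone (κ ++ ρ) ⊆ G) : mrk G κ ≤ rk ρ :=
  Nat.sInf_le ⟨ρ, rfl, h⟩

lemma exists_mrk {G : Set R} (hG : IsOpen G) (hd : Dense G) (κ : Node) :
    ∃ ρ, rk ρ = mrk G κ ∧ cone (κ ++ ρ) ⊆ G := by
  have hne : {n | ∃ ρ, rk ρ = n ∧ cone (κ ++ ρ) ⊆ G}.Nonempty := by
    obtain ⟨x, hx, hxG⟩ := hd.inter_open_nonempty (cone κ) (isOpen_cone κ)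
      ⟨⟨κ, fun _ => 0⟩, List.prefix_rfl⟩
    obtain ⟨k, hk⟩ := (hG x hxG).exists
    have h1 : κ <+: piece x k := List.IsPrefix.trans hx (node_prefix_piece' x k)
    obtain ⟨ρ, hρ⟩ := h1
    exact ⟨rk ρ, ρ, rfl, by rw [hρ]; exact hk⟩
  exact Nat.sInf_mem hne

/-- The auxiliary open sets in the cone of `κ`. -/
def V (Wn : Node → Set R) (G : Set R) (κ : Node) : Set R :=
  ⋃ ρ ∈ {ρ : Node | rk ρ ≤ mrk G κ}, ({x | cone (κ ++ ρ) ⊆ G ∧ x ∈ U (κ ++ ρ)} ∪ Wn (κ ++ ρ))

/-- The finite sequences `s` all of whose entries avoid the sets `Vn`. -/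
def Good (Vn : Node → Set R) (σ : Node) (s : List ℕ) : Prop :=
  ∀ (t : List ℕ) (a : ℕ), t ++ [a] <+: s → Even t.length →
    Disjoint (cone (σ ++ [t] ++ dec a)) (Vn (σ ++ [t]))

/-- The union of the sets `Vn (σ ++ [s])` over the good sequences `s` of even length. -/
def step (Vn : Node → Set R) (σ : Node) : Set R :=
  {x | ∃ s : List ℕ, Even s.length ∧ Good Vn σ s ∧ x ∈ Vn (σ ++ [s])}

/-- The sets `W n G σ`. -/
def W : ℕ → Set R → Node → Set R
  | 0 => fun _ _ => ∅
  | n + 1 => fun G σ => step (V (W n G) G) σ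

lemma nice_V {G : Set R} {Wn : Node → Set R} (h : ∀ σ, Nice G σ (Wn σ)) (κ : Node) :
    Nice G κ (V Wn G κ) := by
  refine nice_iUnion _ fun ρ => ?_
  refine Nice.union ?_ (h _)
  by_cases hρ : cone (κ ++ ρ) ⊆ G
  · have : {x | cone (κ ++ ρ) ⊆ G ∧ x ∈ U (κ ++ ρ)} = U (κ ++ ρ) := by
      ext x; simp [hρ]
    rw [this]
    exact nice_U hρ
  · have : {x | cone (κ ++ ρ) ⊆ G ∧ x ∈ U (κ ++ ρ)} = ∅ := by
      ext x; simp [hρ]
    rw [this]
    exact nice_empty _ _

lemma step_subset_U {G : Set R} {Vn : Node → Set R} (h : ∀ κ, Nice G κ (Vn κ)) (σ : Node) :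
    step Vn σ ⊆ U σ := by
  rintro x ⟨s, hs, -, hx⟩
  exact ⟨s, hs, (h _).sub hx⟩

lemma step_inter_cone {G : Set R} {Vn : Node → Set R} (h : ∀ κ, Nice G κ (Vn κ)) {σ : Node}
    {s : List ℕ} {y : R} (hy : y ∈ cone (σ ++ [s])) (hyS : y ∈ step Vn σ) :
    Even s.length ∧ Good Vn σ s ∧ y ∈ Vn (σ ++ [s]) := by
  obtain ⟨s', hs', hg, hyV⟩ := hyS
  have h1 : σ ++ [s'] <+: y.node := (h _).sub hyV
  have h2 : σ ++ [s'] = σ ++ [s] :=
    (List.prefix_of_prefix_length_le h1 hy (by simp)).eq_of_length (by simp)
  have h3 : s' = s := by simpa using h2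
  subst h3
  exact ⟨hs', hg, hyV⟩

lemma Good.mono {Vn : Node → Set R} {σ : Node} {s s' : List ℕ} (h : Good Vn σ s)
    (hs : s' <+: s) : Good Vn σ s' := fun t a hta ht => h t a (hta.trans hs) ht

/-- At the points with node `σ` the set `step Vn σ` is far. -/
lemma step_far_root {G : Set R} {Vn : Node → Set R} (h : ∀ κ, Nice G κ (Vn κ)) (x : R) :
    Far x (step Vn x.node) := by
  by_cases hall : ∀ k, Good Vn x.node (pre x.br k)
  · refine Eventually.of_forall fun k => ?_
    rw [Set.disjoint_left]
    intro y hy hyS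
    obtain ⟨hev, hg, hyV⟩ := step_inter_cone h ((node_prefix_piece x k).trans hy) hyS
    have := hall (k + 1) (pre x.br k) (x.br k) (by rw [pre_succ]) hev
    exact Set.disjoint_left.1 this hy hyV
  · push Not at hall
    obtain ⟨k0, hk0⟩ := hall
    filter_upwards [eventually_ge_atTop k0] with k hk
    rw [Set.disjoint_left]
    intro y hy hyS
    obtain ⟨hev, hg, hyV⟩ := step_inter_cone h ((node_prefix_piece x k).trans hy) hyS
    exact hk0 (hg.mono (pre_prefix _ hk))

lemma nice_step {G : Set R} {Vn : Node → Set R} (h : ∀ κ, Nice G κ (Vn κ)) (σ : Node) :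
    Nice G σ (step Vn σ) where
  sub := (step_subset_U h σ).trans (U_subset_cone σ)
  op := by
    have : step Vn σ = ⋃ s ∈ {s : List ℕ | Even s.length ∧ Good Vn σ s}, Vn (σ ++ [s]) := by
      ext x
      simp [step, and_assoc]
    rw [this]
    exact isOpen_biUnion fun s _ => (h _).op
  cov := by
    rintro x ⟨s, -, -, hx⟩
    obtain ⟨τ, h1, h2⟩ := (h _).cov x hx
    exact ⟨τ, (List.prefix_append _ _).trans h1, h2⟩
  far := by
    intro x hxG
    by_cases hx : x ∈ cone σ
    · obtain ⟨ρ, hρ⟩ := hx
      rcases ρ with _ | ⟨s, ρ⟩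
      · have hn : σ = x.node := by simpa using hρ
        subst hn
        exact step_far_root h x
      · have h0 : σ ++ [s] <+: x.node := ⟨ρ, by simpa using hρ⟩
        filter_upwards [(h (σ ++ [s])).far x hxG] with k hk
        rw [Set.disjoint_left] at hk ⊢
        intro y hy hyS
        exact hk hy (step_inter_cone h ((h0.trans (node_prefix_piece' x k)).trans hy) hyS).2.2
    · exact (far_cone hx).mono ((step_subset_U h σ).trans (U_subset_cone σ))
  odd := by
    intro x hxS
    by_cases hx : x ∈ cone σ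
    · obtain ⟨ρ, hρ⟩ := hx
      rcases ρ with _ | ⟨s, ρ⟩
      · have hn : σ = x.node := by simpa using hρ
        subst hn
        exact (step_far_root h x).oddFar
      · have h0 : σ ++ [s] <+: x.node := ⟨ρ, by simpa using hρ⟩
        by_cases hgood : Even s.length ∧ Good Vn σ s
        · have hxV : x ∉ Vn (σ ++ [s]) := fun hxV => hxS ⟨s, hgood.1, hgood.2, hxV⟩
          filter_upwards [(h (σ ++ [s])).odd x hxV] with k hk hodd
          have hk' := hk hodd
          rw [Set.disjoint_left] at hk' ⊢
          intro y hy hyS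
          exact hk' hy (step_inter_cone h ((h0.trans (node_prefix_piece' x k)).trans hy) hyS).2.2
        · refine Eventually.of_forall fun k _ => ?_
          rw [Set.disjoint_left]
          intro y hy hyS
          have := step_inter_cone h ((h0.trans (node_prefix_piece' x k)).trans hy) hyS
          exact hgood ⟨this.1, this.2.1⟩
    · exact ((far_cone hx).mono ((step_subset_U h σ).trans (U_subset_cone σ))).oddFar

lemma nice_W (n : ℕ) (G : Set R) : ∀ σ, Nice G σ (W n G σ) := by
  induction n with
  | zero => intro σ; exact nice_empty G σ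
  | succ n ih => intro σ; exact nice_step (nice_V ih) σ


/-! ### The main property of the sets `W n G σ` -/

/-- The finite initial segments of the sequence generated by `next`. -/
def seg (next : List ℕ → ℕ) : ℕ → List ℕ
  | 0 => []
  | n + 1 => seg next n ++ [next (seg next n)]

lemma exists_branch (next : List ℕ → ℕ) : ∃ z : ℕ → ℕ, ∀ n, z n = next (pre z n) := by
  refine ⟨fun n => next (seg next n), ?_⟩
  have h : ∀ n, pre (fun n => next (seg next n)) n = seg next n := by
    intro n
    induction n with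
    | zero => simp [pre, seg]
    | succ n ih => rw [pre_succ, ih, seg]
  intro n
  rw [h]

theorem main (n : ℕ) : ∀ (σ : Node) (G : Fin n → Set R) (_ : ∀ i, IsOpen (G i) ∧ Dense (G i))
    (f : R → ℝ) (_ : Continuous f) (_ : ∀ x ∈ U σ, (∀ i, x ∈ W n (G i) σ) → f x = 0),
    ∃ z, f ⟨σ, z⟩ = 0 := by
  induction n with
  | zero =>
    intro σ G _ f hf h0
    refine ⟨fun _ => 0, ?_⟩
    by_contra hne
    have hopen : IsOpen (f ⁻¹' {0}ᶜ) := isOpen_compl_singleton.preimage hf
    obtain ⟨m, hm⟩ := eventually_atTop.1 (hopen ⟨σ, fun _ => 0⟩ hne)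
    have h1 := hm (2 * m) (by omega)
    have h2 : (⟨piece ⟨σ, fun _ => 0⟩ (2 * m), fun _ => 0⟩ : R) ∈
        cone (piece ⟨σ, fun _ => 0⟩ (2 * m)) := List.prefix_rfl
    refine h1 h2 (h0 _ ⟨pre (fun _ => 0) (2 * m), by simp, ?_⟩ (fun i => i.elim0))
    exact node_prefix_piece ⟨σ, fun _ => 0⟩ (2 * m)
  | succ n ih =>
    intro σ G hG f hf h0
    -- the sets used below
    set VV : Fin (n + 1) → Node → Set R := fun i => V (W n (G i)) (G i) with hVV
    have hnice : ∀ i κ, Nice (G i) κ (VV i κ) := fun i κ => nice_V (nice_W n (G i)) κ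
    -- one step
    have hstep : ∀ s : List ℕ, Even s.length → (∀ i, Good (VV i) σ s) →
        ∀ ε > 0, ∃ a, (∀ i, Disjoint (cone (σ ++ [s] ++ dec a)) (VV i (σ ++ [s]))) ∧
          ∀ y ∈ cone (σ ++ [s] ++ dec a), |f y| < ε := by
      intro s hs hgood ε hε
      obtain ⟨j0, hj0⟩ := Finite.exists_min (fun i => mrk (G i) (σ ++ [s]))
      obtain ⟨ρ1, hρ1, hρG⟩ := exists_mrk (hG j0).1 (hG j0).2 (σ ++ [s])
      have hzero : ∀ x ∈ U (σ ++ [s] ++ ρ1), (∀ i : Fin n, x ∈ W n (G (j0.succAbove i))
          (σ ++ [s] ++ ρ1)) → f x = 0 := by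
        intro x hx hxW
        have hmem : ∀ j, x ∈ VV j (σ ++ [s]) := by
          intro j
          by_cases hj : j = j0
          · subst hj
            exact mem_iUnion₂.2 ⟨ρ1, hρ1.le, Or.inl ⟨hρG, hx⟩⟩
          · obtain ⟨i, rfl⟩ := Fin.exists_succAbove_eq hj
            exact mem_iUnion₂.2 ⟨ρ1, hρ1.le.trans (hj0 _), Or.inr (hxW i)⟩
        have hmem' : ∀ j, x ∈ W (n + 1) (G j) σ := fun j => ⟨s, hs, hgood j, hmem j⟩
        exact h0 x (step_subset_U (hnice j0) σ (hmem' j0)) hmem'
      obtain ⟨z', hz'⟩ := ih (σ ++ [s] ++ ρ1) (fun i => G (j0.succAbove i)) (fun i => hG _) f hf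
        hzero
      -- the point `z'` is outside of the sets `VV`
      have hout : ∀ j, (⟨σ ++ [s] ++ ρ1, z'⟩ : R) ∉ VV j (σ ++ [s]) := by
        intro j hj
        obtain ⟨τ, ⟨ρ, rfl⟩, hτG, s', -, hs'⟩ := (hnice j _).cov _ hj
        have h1 : mrk (G j) (σ ++ [s]) ≤ rk ρ := mrk_le hτG
        have h2 : rk (σ ++ [s] ++ ρ ++ [s']) ≤ rk (σ ++ [s] ++ ρ1) := rk_mono hs'
        rw [rk_append, rk_append (σ ++ [s]) ρ, rk_append (σ ++ [s]) ρ1, rk_single] at h2
        have h3 := hj0 j
        omega
      have hodd : ∀ᶠ k in atTop, ∀ j, Odd k →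
          Disjoint (cone (piece ⟨σ ++ [s] ++ ρ1, z'⟩ k)) (VV j (σ ++ [s])) :=
        eventually_all.2 fun j => (hnice j _).odd _ (hout j)
      have hopen : IsOpen (f ⁻¹' Metric.ball 0 ε) := Metric.isOpen_ball.preimage hf
      have hnear : ∀ᶠ k in atTop, cone (piece ⟨σ ++ [s] ++ ρ1, z'⟩ k) ⊆ f ⁻¹' Metric.ball 0 ε := by
        apply hopen
        rw [mem_preimage, hz']
        exact Metric.mem_ball_self hε
      obtain ⟨m, hm⟩ := eventually_atTop.1 (hodd.and hnear)
      have hk := hm (2 * m + 1) (by omega)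
      obtain ⟨a, ha⟩ := dec_surj (ρ1 ++ [pre z' (2 * m + 1)] ++ dec (z' (2 * m + 1)))
      have hcone : cone (σ ++ [s] ++ dec a) = cone (piece ⟨σ ++ [s] ++ ρ1, z'⟩ (2 * m + 1)) := by
        rw [ha]
        simp [piece]
      refine ⟨a, ?_, ?_⟩
      · intro i
        rw [hcone]
        exact hk.1 i ⟨m, rfl⟩
      · intro y hy
        rw [hcone] at hy
        have := hk.2 hy
        simpa using this
    -- choose the branch
    have hchoice : ∀ s : List ℕ, ∃ a : ℕ, Even s.length → (∀ i, Good (VV i) σ s) →
        (∀ i, Disjoint (cone (σ ++ [s] ++ dec a)) (VV i (σ ++ [s]))) ∧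
          ∀ y ∈ cone (σ ++ [s] ++ dec a), |f y| < 1 / ((s.length : ℝ) + 1) := by
      intro s
      by_cases h : Even s.length ∧ ∀ i, Good (VV i) σ s
      · obtain ⟨a, ha⟩ := hstep s h.1 h.2 (1 / ((s.length : ℝ) + 1)) (by positivity)
        exact ⟨a, fun _ _ => ha⟩
      · exact ⟨0, fun h1 h2 => absurd ⟨h1, h2⟩ h⟩
    choose next hnext using hchoice
    obtain ⟨z, hz⟩ := exists_branch next
    have hgood : ∀ k, ∀ i, Good (VV i) σ (pre z k) := by
      intro k
      induction k with
      | zero =>
        intro i t a hta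
        have := hta.length_le
        simp [pre] at this
      | succ k ihk =>
        intro i t a hta ht
        rw [pre_succ, List.prefix_concat_iff] at hta
        rcases hta with h | h
        · have h1 : t = pre z k ∧ a = z k := by simpa using List.append_inj' h rfl
          obtain ⟨rfl, rfl⟩ := h1
          rw [hz k]
          exact (hnext (pre z k) ht ihk).1 i
        · exact ihk i t a h ht
    refine ⟨z, ?_⟩
    by_contra hne
    have hpos : 0 < |f ⟨σ, z⟩| := abs_pos.2 hne
    have hopen : IsOpen {y | |f ⟨σ, z⟩| / 2 < |f y|} :=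
      isOpen_lt continuous_const hf.abs
    obtain ⟨m, hm⟩ := eventually_atTop.1 (hopen ⟨σ, z⟩ (half_lt_self hpos))
    obtain ⟨N, hN⟩ := exists_nat_gt (1 / (|f ⟨σ, z⟩| / 2))
    have hk : m ≤ 2 * (m + N) := by omega
    have h1 := hm _ hk
    have h2 : (⟨piece ⟨σ, z⟩ (2 * (m + N)), fun _ => 0⟩ : R) ∈
        cone (piece ⟨σ, z⟩ (2 * (m + N))) := List.prefix_rfl
    have h3 := h1 h2
    have h4 := (hnext (pre z (2 * (m + N))) (by simp) (hgood _)).2
      ⟨piece ⟨σ, z⟩ (2 * (m + N)), fun _ => 0⟩ (by
        rw [← hz]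
        exact h2)
    rw [pre_length] at h4
    have h5 : 1 / (((2 * (m + N) : ℕ) : ℝ) + 1) < |f ⟨σ, z⟩| / 2 := by
      rw [one_div_lt (by positivity) (by positivity)]
      refine hN.trans_le ?_
      push_cast
      have : (0 : ℝ) ≤ m := by positivity
      have : (0 : ℝ) ≤ N := by positivity
      linarith
    exact absurd (h3.trans (h4.trans h5)) (lt_irrefl _)


/-! ### The filter -/

lemma not_mem_U_self (x : R) : x ∉ U x.node := by
  rintro ⟨s, -, hs⟩
  have := hs.length_le
  simp at this

lemma W_subset_U (n : ℕ) (G : Set R) (σ : Node) : W n G σ ⊆ U σ := by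
  cases n with
  | zero => exact empty_subset _
  | succ n => exact step_subset_U (nice_V (nice_W n G)) σ

lemma W_far_root (n : ℕ) (G : Set R) (x : R) : Far x (W n G x.node) := by
  cases n with
  | zero => exact Eventually.of_forall fun _ => disjoint_empty _
  | succ n => exact step_far_root (nice_V (nice_W n G)) x

/-- The open set attached to the dense open set `G`. -/
def WT (G : Set R) : Set R := ⋃ n : ℕ, W n G [[n]]

/-- The closed nowhere dense set which cannot be separated. -/
def N : Set R := {x | ∃ n : ℕ, x.node = [[n]]}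

lemma isClosed_N : IsClosed N := by
  rw [← isOpen_compl_iff]
  intro x _
  filter_upwards [eventually_ge_atTop 2] with k hk y hy hyN
  obtain ⟨n, hn⟩ := hyN
  have h1 : rk (x.node ++ [pre x.br k]) ≤ rk y.node := rk_mono ((node_prefix_piece x k).trans hy)
  rw [hn, rk_append, rk_single, rk_single, pre_length] at h1
  simp only [List.length_singleton] at h1
  omega

lemma isOpen_WT (G : Set R) : IsOpen (WT G) := isOpen_iUnion fun n => (nice_W n G _).op

lemma eq_of_mem_cones {y : R} {n n' : ℕ} (h : y ∈ cone [[n]]) (h' : y ∈ cone [[n']]) : n = n' := by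
  have h2 : ([[n]] : Node) = [[n']] :=
    (List.prefix_of_prefix_length_le h h' (by simp)).eq_of_length (by simp)
  simpa using h2

lemma far_WT {x : R} {G : Set R} (h : ∀ n : ℕ, x ∈ cone [[n]] → Far x (W n G [[n]])) :
    Far x (WT G) := by
  by_cases hx : ∃ n : ℕ, x ∈ cone [[n]]
  · obtain ⟨n, hn⟩ := hx
    filter_upwards [h n hn] with k hk
    rw [Set.disjoint_left] at hk ⊢
    intro y hy hyW
    obtain ⟨n', hn'⟩ := mem_iUnion.1 hyW
    have h1 : y ∈ cone [[n]] := (List.IsPrefix.trans hn (node_prefix_piece' x k)).trans hy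
    have h2 := eq_of_mem_cones h1 ((nice_W n' G _).sub hn')
    subst h2
    exact hk hy hn'
  · filter_upwards [eventually_ge_atTop 2] with k hk
    rw [Set.disjoint_left]
    intro y hy hyW
    obtain ⟨n', hn'⟩ := mem_iUnion.1 hyW
    exact hx ⟨n', prefix_of_meets (by rw [rk_single]; simpa using hk) hy
      ((nice_W n' G _).sub hn')⟩

lemma WT_subset (G : Set R) : WT G ⊆ G := iUnion_subset fun n => (nice_W n G _).subset

lemma closure_WT_subset (G : Set R) : closure (WT G) ⊆ G := by
  intro x hx
  by_contra hxG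
  refine (far_WT fun n _ => ?_).not_mem_closure (fun h => hxG (WT_subset G h)) hx
  exact (nice_W n G _).far x hxG

lemma closure_WT_disjoint_N {G : Set R} {x : R} (hx : x ∈ N) : x ∉ closure (WT G) := by
  obtain ⟨n, hn⟩ := hx
  have hcone : ∀ n' : ℕ, x ∈ cone [[n']] → n' = n := by
    intro n' hn'
    refine eq_of_mem_cones hn' ?_
    show [[n]] <+: x.node
    rw [hn]
  apply (far_WT fun n' hn' => ?_).not_mem_closure
  · intro h
    obtain ⟨n', hn'⟩ := mem_iUnion.1 h
    have := hcone n' ((nice_W n' G _).sub hn')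
    subst this
    have h1 := W_subset_U _ _ _ hn'
    rw [← hn] at h1
    exact not_mem_U_self x h1
  · have := hcone n' hn'
    subst this
    rw [← hn]
    exact W_far_root _ _ _

/-- The family which generates the ultrafilter. -/
def S : Set (Set R) :=
  {A | ∃ G : Set R, (IsOpen G ∧ Dense G) ∧ A = WT G} ∪
    {A | ∃ h : R → ℝ, Continuous h ∧ (∀ x ∈ N, h x ≠ 0) ∧ A = {x | h x ≠ 0}}

lemma finite_S (t : Set (Set R)) (ht : t.Finite) (hS : t ⊆ S) :
    ∃ (n : ℕ) (G : Fin n → Set R) (h : R → ℝ), (∀ i, IsOpen (G i) ∧ Dense (G i)) ∧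
      Continuous h ∧ (∀ x ∈ N, h x ≠ 0) ∧
      ∀ x, (∀ i, x ∈ WT (G i)) → h x ≠ 0 → x ∈ ⋂₀ t := by
  induction t, ht using Set.Finite.induction_on with
  | empty =>
    exact ⟨0, fun i => i.elim0, fun _ => 1, fun i => i.elim0, continuous_const,
      fun _ _ => one_ne_zero, fun x _ _ => by simp⟩
  | @insert A t hA ht ih =>
    obtain ⟨n, G, h, hG, hh, hN, hx⟩ := ih ((subset_insert _ _).trans hS)
    rcases hS (mem_insert A t) with ⟨G', hG', rfl⟩ | ⟨h', hh', hN', rfl⟩
    · refine ⟨n + 1, Fin.cons G' G, h, ?_, hh, hN, ?_⟩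
      · intro i
        refine Fin.cases ?_ (fun j => ?_) i
        · simpa using hG'
        · simpa using hG j
      · intro x hxG hxh
        rw [sInter_insert]
        refine ⟨?_, hx x (fun i => ?_) hxh⟩
        · simpa using hxG 0
        · simpa using hxG i.succ
    · refine ⟨n, G, fun x => h' x * h x, hG, hh'.mul hh, ?_, ?_⟩
      · intro x hxN
        exact mul_ne_zero (hN' x hxN) (hN x hxN)
      · intro x hxG hxh
        rw [sInter_insert]
        exact ⟨left_ne_zero_of_mul hxh, hx x hxG (right_ne_zero_of_mul hxh)⟩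

lemma neBot_S : (Filter.generate S).NeBot := by
  rw [Filter.generate_neBot_iff]
  intro t hS ht
  obtain ⟨n, G, h, hG, hh, hN, hx⟩ := finite_S t ht hS
  by_contra hne
  rw [Set.not_nonempty_iff_eq_empty] at hne
  have h0 : ∀ x, (∀ i, x ∈ WT (G i)) → h x = 0 := by
    intro x hxG
    by_contra hxh
    have := hx x hxG hxh
    rw [hne] at this
    exact this
  obtain ⟨z, hz⟩ := main n [[n]] G hG h hh (fun x _ hxW =>
    h0 x fun i => mem_iUnion.2 ⟨n, hxW i⟩)
  exact hN _ ⟨n, rfl⟩ hz

/-- The filter generated by the open members of `𝒰`. -/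
def openPart {X : Type*} [TopologicalSpace X] (𝒰 : Filter X) : Filter X where
  sets := {A | ∃ O, IsOpen O ∧ O ∈ 𝒰 ∧ O ⊆ A}
  univ_sets := ⟨univ, isOpen_univ, univ_mem, subset_rfl⟩
  sets_of_superset := by
    rintro A A' ⟨O, h1, h2, h3⟩ hA
    exact ⟨O, h1, h2, h3.trans hA⟩
  inter_sets := by
    rintro A A' ⟨O, h1, h2, h3⟩ ⟨O', h1', h2', h3'⟩
    exact ⟨O ∩ O', h1.inter h1', inter_mem h2 h2', inter_subset_inter h3 h3'⟩

/-- There are a Tychonoff space `X` and a free closed-open ultrafilter on `X` which is not a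
zero-cozero ultrafilter. -/
theorem result : ∃ (X : Type) (_ : TopologicalSpace X) (F : Filter X), T35Space X ∧
    ⋂₀ F.sets = ∅ ∧ (IsQUltrafilter IsClosed F ∧ IsQUltrafilter IsOpen F) ∧
      ¬ (IsQUltrafilter IsZeroSet F ∧ IsQUltrafilter IsCozeroSet F) := by
  have hS := neBot_S
  let 𝒰 : Ultrafilter R := Ultrafilter.of (Filter.generate S)
  have h𝒰 : ∀ A ∈ S, A ∈ (𝒰 : Filter R) := fun A hA =>
    Ultrafilter.of_le (Filter.generate S) (Filter.mem_generate_of_mem hA)
  have hWT : ∀ G : Set R, IsOpen G → Dense G → WT G ∈ (𝒰 : Filter R) := fun G h1 h2 =>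
    h𝒰 _ (Or.inl ⟨G, ⟨h1, h2⟩, rfl⟩)
  -- open sets are decided
  have hdec : ∀ A : Set R, IsOpen A → A ∈ openPart (𝒰 : Filter R) ∨
      Aᶜ ∈ openPart (𝒰 : Filter R) := by
    intro A hA
    have hd : Dense (A ∪ (closure A)ᶜ) := by
      intro x
      by_cases hx : x ∈ closure A
      · exact closure_mono subset_union_left hx
      · exact subset_closure (Or.inr hx)
    have h1 : A ∪ (closure A)ᶜ ∈ (𝒰 : Filter R) :=
      mem_of_superset (hWT _ (hA.union isClosed_closure.isOpen_compl) hd) (WT_subset _)
    rcases Ultrafilter.union_mem_iff.1 h1 with h | h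
    · exact Or.inl ⟨A, hA, h, subset_rfl⟩
    · exact Or.inr ⟨_, isClosed_closure.isOpen_compl, h, compl_subset_compl.2 subset_closure⟩
  have hne : (openPart (𝒰 : Filter R)).NeBot := by
    refine ⟨fun hbot => ?_⟩
    have h1 : (∅ : Set R) ∈ openPart (𝒰 : Filter R) := by rw [hbot]; trivial
    obtain ⟨O, -, hO, hOe⟩ := h1
    rw [subset_empty_iff] at hOe
    rw [hOe] at hO
    exact Ultrafilter.empty_notMem hO
  have hclWT : ∀ G : Set R, IsOpen G → Dense G → closure (WT G) ∈ openPart (𝒰 : Filter R) :=
    fun G h1 h2 => ⟨WT G, isOpen_WT G, hWT G h1 h2, subset_closure⟩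
  refine ⟨R, inferInstance, openPart (𝒰 : Filter R), inferInstance, ?_, ⟨⟨⟨hne, ?_⟩, ?_⟩,
    ⟨⟨hne, ?_⟩, hdec⟩⟩, ?_⟩
  · -- free
    rw [Set.eq_empty_iff_forall_notMem]
    intro x hx
    by_cases hxN : x ∈ N
    · exact closure_WT_disjoint_N hxN (hx _ (hclWT univ isOpen_univ dense_univ))
    · obtain ⟨m, hm⟩ := exists_B_subset isClosed_N.isOpen_compl hxN
      have h1 : (B x m)ᶜ ∈ S := by
        refine Or.inr ⟨(B x m)ᶜ.indicator (fun _ => 1), ?_, ?_, ?_⟩
        · exact (isClopen_B x m).compl.continuous_indicator continuous_const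
        · intro y hy
          have : y ∉ B x m := fun h => hm h hy
          simp [this]
        · ext y
          simp
      have h2 : (B x m)ᶜ ∈ openPart (𝒰 : Filter R) :=
        ⟨_, (isClosed_B x m).isOpen_compl, h𝒰 _ h1, subset_rfl⟩
      exact hx _ h2 (mem_B x m)
  · -- base of closed sets
    rintro A ⟨O, hO, hOU, hOA⟩
    have hd : Dense (O ∪ (closure O)ᶜ) := by
      intro x
      by_cases hx : x ∈ closure O
      · exact closure_mono subset_union_left hx
      · exact subset_closure (Or.inr hx)
    have ho : IsOpen (O ∪ (closure O)ᶜ) := hO.union isClosed_closure.isOpen_compl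
    refine ⟨closure (WT (O ∪ (closure O)ᶜ)) ∩ closure O, ?_, isClosed_closure.inter
      isClosed_closure, ?_⟩
    · exact ⟨WT (O ∪ (closure O)ᶜ) ∩ O, (isOpen_WT _).inter hO, inter_mem (hWT _ ho hd) hOU,
        inter_subset_inter subset_closure subset_closure⟩
    · rintro x ⟨hx1, hx2⟩
      rcases closure_WT_subset _ hx1 with h | h
      · exact hOA h
      · exact absurd hx2 h
  · -- closed sets are decided
    intro A hA
    rcases hdec Aᶜ hA.isOpen_compl with h | h
    · exact Or.inr h
    · rw [compl_compl] at h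
      exact Or.inl h
  · -- base of open sets
    rintro A ⟨O, hO, hOU, hOA⟩
    exact ⟨O, ⟨O, hO, hOU, subset_rfl⟩, hO, hOA⟩
  · -- not a zero-cozero ultrafilter
    rintro ⟨⟨⟨-, hzero⟩, -⟩, -⟩
    have hN : Nᶜ ∈ openPart (𝒰 : Filter R) := by
      refine ⟨WT univ, isOpen_WT _, hWT univ isOpen_univ dense_univ, ?_⟩
      intro x hx hxN
      exact closure_WT_disjoint_N hxN (subset_closure hx)
    obtain ⟨Z, ⟨O, hO, hOU, hOZ⟩, ⟨f, hf, rfl⟩, hZN⟩ := hzero _ hN
    have h1 : {x : R | ((f x : unitInterval) : ℝ) ≠ 0} ∈ S := by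
      refine Or.inr ⟨fun x => (f x : ℝ), continuous_subtype_val.comp hf, ?_, rfl⟩
      intro x hx h
      refine hZN ?_ hx
      simp only [mem_preimage, mem_singleton_iff]
      exact Subtype.ext h
    have h2 := inter_mem hOU (h𝒰 _ h1)
    obtain ⟨x, hxO, hx⟩ := Ultrafilter.nonempty_of_mem h2
    have h3 := hOZ hxO
    simp only [mem_preimage, mem_singleton_iff] at h3
    exact hx (by rw [h3]; rfl)

end Pool.Agent.Results.MP_b2e206_gt.ClosedOpenNotZeroCozero
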